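import Pool.Agent.W811.Dos.Stm
import Pool.Agent.H84R3.WeylCrit

/-! # Equidistribution of local functions (DD-WL of helper811) -/

set_option autoImplicit false

open MeasureTheory Filter Topology Set

namespace Pool.Agent.W688.Dos

open Pool.Agent.W811.Dos Pool.Agent.H695R3.ST Pool.Agent.H84R3

/-! ### shift covariance -/

lemma sch_shift (V : ℤ → ℝ) (f : ℤ → ℝ) (s : ℤ) :
    sch (fun n => V (n + s)) (fun n => f (n + s)) = fun n => sch V f (n + s) := by
  funext n
  unfold sch
  simp only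
  rw [show n + 1 + s = n + s + 1 by ring, show n - 1 + s = n + s - 1 by ring]

lemma sch_iter_shift (V : ℤ → ℝ) (s : ℤ) (k : ℕ) : ∀ f : ℤ → ℝ,
    (sch (fun n => V (n + s)))^[k] (fun n => f (n + s)) = fun n => ((sch V)^[k] f) (n + s) := by
  induction k with
  | zero => intro f; rfl
  | succ k ih =>
    intro f
    rw [Function.iterate_succ_apply, sch_shift, ih, Function.iterate_succ_apply]

lemma loc_shift (V : ℤ → ℝ) (k : ℕ) (n : ℤ) : loc V k n = loc (fun j => V (j + n)) k 0 := by
  unfold loc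
  have h := sch_iter_shift V n k (fun j => if j = n then 1 else 0)
  have e : (fun j : ℤ => if j + n = n then (1:ℝ) else 0) = fun j => if j = 0 then 1 else 0 := by
    funext j
    simp
  rw [e] at h
  rw [h]
  simp only [zero_add]

lemma pot_shift (lam α : ℝ) (n : ℤ) : (fun j => pot lam α 0 (j + n)) = pot lam α (n * α) := by
  funext j
  unfold pot
  congr 3
  push_cast
  ring

/-! ### exponential sums -/

lemma geo {α : ℝ} (hα : Irrational α) (k : ℕ) (hk : 1 ≤ k) :
    Tendsto (fun N => A (fun n => ((n:ℝ) + 1) * α) k N) atTop (𝓝 0) := by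
  set r : ℂ := ex (k * α) with hr
  have hpow : ∀ n : ℕ, ex (k * (((n:ℝ) + 1) * α)) = r * r ^ n := by
    intro n
    induction n with
    | zero => simp [hr]
    | succ n ih =>
      have e : (k:ℝ) * ((((n + 1 : ℕ) : ℝ) + 1) * α) = k * (((n:ℝ) + 1) * α) + k * α := by
        push_cast; ring
      rw [e, ex_add, ih, pow_succ]
      ring
  have hr1 : r ≠ 1 := by
    intro h
    rw [hr] at h
    unfold ex at h
    rw [Complex.exp_eq_one_iff] at h
    obtain ⟨n, hn⟩ := h
    have hπ : (2 * Real.pi * Complex.I : ℂ) ≠ 0 := by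
      simp [Real.pi_ne_zero, Complex.I_ne_zero]
    have h2 : (((k:ℝ) * α : ℝ) : ℂ) = ((n : ℝ) : ℂ) := by
      apply mul_right_cancel₀ hπ
      rw [show ((n : ℝ) : ℂ) = (n : ℂ) by norm_cast, ← hn]
      push_cast
      ring
    have h3 : (k:ℝ) * α = n := by exact_mod_cast h2
    have hk0 : (k : ℝ) ≠ 0 := by
      have : (1 : ℝ) ≤ k := by exact_mod_cast hk
      linarith
    apply hα
    refine ⟨(n : ℚ) / k, ?_⟩
    push_cast
    rw [← h3]
    field_simp
  have hb : 0 < ‖r - 1‖ := norm_pos_iff.2 (sub_ne_zero.2 hr1)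
  have hnr : ‖r‖ = 1 := norm_ex _
  have hbound : ∀ N : ℕ, ‖A (fun n => ((n:ℝ) + 1) * α) k N‖ ≤ 2 / ‖r - 1‖ / N := by
    intro N
    unfold A
    rw [norm_div, Complex.norm_natCast]
    apply div_le_div_of_nonneg_right _ (Nat.cast_nonneg N)
    simp_rw [hpow]
    rw [← Finset.mul_sum, geom_sum_eq hr1, norm_mul, norm_div, hnr, one_mul]
    apply div_le_div_of_nonneg_right _ hb.le
    refine (norm_sub_le _ _).trans ?_
    rw [norm_pow, hnr, one_pow, norm_one]
    norm_num
  exact squeeze_zero_norm hbound (tendsto_const_div_atTop_nhds_zero_nat _)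

lemma ud_rot {α : ℝ} (hα : Irrational α) : UD (fun n => ((n:ℝ) + 1) * α) :=
  ud_of_weyl _ fun k hk => geo hα k hk

/-! ### step functions -/

noncomputable def hh (a ω : ℝ) : ℝ := if Int.fract ω < a then 1 else 0

def SS : Submodule ℝ (ℝ → ℝ) := Submodule.span ℝ {f | ∃ a, 0 ≤ a ∧ a ≤ 1 ∧ f = hh a}

lemma hh_mem {a : ℝ} (h0 : 0 ≤ a) (h1 : a ≤ 1) : hh a ∈ SS := Submodule.subset_span ⟨a, h0, h1, rfl⟩

lemma hh_mul (a b : ℝ) : hh a * hh b = hh (min a b) := by
  funext ω
  simp only [Pi.mul_apply, hh, lt_min_iff]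
  by_cases h1 : Int.fract ω < a <;> by_cases h2 : Int.fract ω < b <;> simp [h1, h2]

lemma SS_mul {f g : ℝ → ℝ} (hf : f ∈ SS) (hg : g ∈ SS) : f * g ∈ SS := by
  refine Submodule.span_induction (p := fun f _ => f * g ∈ SS) ?_ ?_ ?_ ?_ hf
  · rintro _ ⟨a, ha0, ha1, rfl⟩
    refine Submodule.span_induction (p := fun g _ => hh a * g ∈ SS) ?_ ?_ ?_ ?_ hg
    · rintro _ ⟨b, hb0, hb1, rfl⟩
      rw [hh_mul]
      exact hh_mem (le_min ha0 hb0) ((min_le_left _ _).trans ha1)
    · rw [mul_zero]; exact zero_mem _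
    · intro x y _ _ hx hy
      rw [mul_add]
      exact add_mem hx hy
    · intro c x _ hx
      rw [mul_smul_comm]
      exact Submodule.smul_mem _ c hx
  · rw [zero_mul]; exact zero_mem _
  · intro x y _ _ hx hy
    rw [add_mul]
    exact add_mem hx hy
  · intro c x _ hx
    rw [smul_mul_assoc]
    exact Submodule.smul_mem _ c hx

lemma const_mem (c : ℝ) : (fun _ : ℝ => c) ∈ SS := by
  have : (fun _ : ℝ => c) = c • hh 1 := by
    funext ω
    simp [hh, Int.fract_lt_one]
  rw [this]
  exact Submodule.smul_mem _ c (hh_mem zero_le_one le_rfl)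

lemma pot_mem {lam α : ℝ} (h0 : 0 < α) (h1 : α < 1) (j : ℤ) : (fun ω => pot lam α ω j) ∈ SS := by
  set s : ℝ := Int.fract (j * α) with hs
  have hs0 : 0 ≤ s := Int.fract_nonneg _
  have hs1 : s < 1 := Int.fract_lt_one _
  have e : (fun ω => pot lam α ω j) =
      lam • (hh (1 - s) - hh (max 0 (1 - α - s)) + hh 1 - hh (min 1 (2 - α - s))) := by
    funext ω
    have t0 := Int.fract_nonneg ω
    have t1 := Int.fract_lt_one ω
    have hfr : Int.fract (ω + j * α) =
        if Int.fract ω + s < 1 then Int.fract ω + s else Int.fract ω + s - 1 := by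
      have h2 : ω + j * α = (Int.fract ω + s) + ((⌊ω⌋ + ⌊(j:ℝ) * α⌋ : ℤ) : ℝ) := by
        have h3 := Int.floor_add_fract ω
        have h4 := Int.floor_add_fract ((j:ℝ) * α)
        push_cast
        rw [hs]
        linarith
      rw [h2, Int.fract_add_intCast]
      split_ifs with h
      · exact Int.fract_eq_self.2 ⟨by linarith, h⟩
      · rw [Int.fract_eq_iff]
        push Not at h
        exact ⟨by linarith, by linarith, 1, by push_cast; ring⟩
    simp only [Pi.smul_apply, Pi.sub_apply, Pi.add_apply, smul_eq_mul, hh, pot, hfr]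
    set t := Int.fract ω with ht
    by_cases hc : t + s < 1
    · rw [if_pos hc]
      have a1 : t < 1 - s := by linarith
      have a2 : t < min 1 (2 - α - s) := lt_min t1 (by linarith)
      rw [if_pos a1, if_pos t1, if_pos a2]
      by_cases hd : 1 - α ≤ t + s
      · have a3 : ¬ t < max 0 (1 - α - s) := by
          rw [not_lt, max_le_iff]; exact ⟨t0, by linarith⟩
        rw [if_pos hd, if_neg a3]; ring
      · have a3 : t < max 0 (1 - α - s) := lt_max_of_lt_right (by linarith)
        rw [if_neg hd, if_pos a3]; ring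
    · rw [if_neg hc]
      push Not at hc
      have a1 : ¬ t < 1 - s := by linarith
      have a2 : ¬ t < max 0 (1 - α - s) := by
        rw [not_lt, max_le_iff]; exact ⟨t0, by linarith⟩
      rw [if_neg a1, if_neg a2, if_pos t1]
      by_cases hd : 1 - α ≤ t + s - 1
      · have a3 : ¬ t < min 1 (2 - α - s) := by
          intro h
          have := h.trans_le (min_le_right _ _)
          linarith
        rw [if_pos hd, if_neg a3]; ring
      · have a3 : t < min 1 (2 - α - s) := lt_min t1 (by linarith)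
        rw [if_neg hd, if_pos a3]; ring
  rw [e]
  refine Submodule.smul_mem _ _ (sub_mem (add_mem (sub_mem ?_ ?_) ?_) ?_)
  · exact hh_mem (by linarith) (by linarith)
  · exact hh_mem (le_max_left _ _) (max_le zero_le_one (by linarith))
  · exact hh_mem zero_le_one le_rfl
  · exact hh_mem (le_min zero_le_one (by linarith)) (min_le_left _ _)

lemma sch_mem {lam α : ℝ} (h0 : 0 < α) (h1 : α < 1) (k : ℕ) : ∀ n : ℤ,
    (fun ω => ((sch (pot lam α ω))^[k] (fun j => if j = 0 then 1 else 0)) n) ∈ SS := by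
  induction k with
  | zero =>
    intro n
    exact const_mem _
  | succ k ih =>
    intro n
    simp_rw [Function.iterate_succ_apply']
    have e : (fun ω => sch (pot lam α ω)
        ((sch (pot lam α ω))^[k] (fun j => if j = 0 then 1 else 0)) n) =
        (fun ω => ((sch (pot lam α ω))^[k] (fun j => if j = 0 then 1 else 0)) (n + 1)) +
        (fun ω => ((sch (pot lam α ω))^[k] (fun j => if j = 0 then 1 else 0)) (n - 1)) +
        (fun ω => pot lam α ω n) *
          (fun ω => ((sch (pot lam α ω))^[k] (fun j => if j = 0 then 1 else 0)) n) := by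
      funext ω
      rfl
    rw [e]
    exact add_mem (add_mem (ih _) (ih _)) (SS_mul (pot_mem h0 h1 n) (ih n))

/-! ### averages -/

lemma hh_int {a : ℝ} (h0 : 0 ≤ a) (h1 : a ≤ 1) : IntervalIntegrable (hh a) volume 0 1 ∧
    ∫ ω in (0:ℝ)..1, hh a ω = a := by
  have hae : ∀ᵐ ω : ℝ, ω ∈ Ioc (0:ℝ) 1 → hh a ω = (Iio a).indicator (fun _ => (1:ℝ)) ω := by
    have hne : ∀ᵐ ω : ℝ, ω ≠ 1 := by simp [ae_iff]
    filter_upwards [hne] with ω hω hm
    have hfr : Int.fract ω = ω := Int.fract_eq_self.2 ⟨hm.1.le, lt_of_le_of_ne hm.2 hω⟩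
    unfold hh
    rw [hfr]
    by_cases h : ω < a
    · rw [if_pos h, indicator_of_mem (show ω ∈ Iio a from h)]
    · rw [if_neg h, indicator_of_notMem (show ω ∉ Iio a from h)]
  have hae' : hh a =ᵐ[volume.restrict (Ioc (0:ℝ) 1)] (Iio a).indicator (fun _ => (1:ℝ)) := by
    rw [EventuallyEq, ae_restrict_iff' measurableSet_Ioc]
    exact hae
  have hii : IntegrableOn ((Iio a).indicator (fun _ => (1:ℝ))) (Ioc (0:ℝ) 1) := by
    apply Integrable.indicator _ measurableSet_Iio
    exact integrableOn_const (by simp)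
  constructor
  · rw [intervalIntegrable_iff_integrableOn_Ioc_of_le zero_le_one]
    exact hii.congr hae'.symm
  · rw [intervalIntegral.integral_of_le zero_le_one, integral_congr_ae hae',
      setIntegral_indicator measurableSet_Iio, setIntegral_const, smul_eq_mul, mul_one]
    have : Ioc (0:ℝ) 1 ∩ Iio a = Ioo 0 a := by
      ext ω
      simp only [mem_inter_iff, mem_Ioc, mem_Iio, mem_Ioo]
      constructor
      · rintro ⟨⟨h2, -⟩, h3⟩; exact ⟨h2, h3⟩
      · rintro ⟨h2, h3⟩; exact ⟨⟨h2, by linarith⟩, h3⟩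
    rw [this, Real.volume_real_Ioo_of_le h0, sub_zero]

lemma avg_SS {x : ℕ → ℝ} (hx : UD x) {f : ℝ → ℝ} (hf : f ∈ SS) :
    IntervalIntegrable f volume 0 1 ∧
    Tendsto (fun N : ℕ => (∑ n ∈ Finset.range N, f (x n)) / (N : ℝ)) atTop
      (𝓝 (∫ ω in (0:ℝ)..1, f ω)) := by
  refine Submodule.span_induction (p := fun f _ => IntervalIntegrable f volume 0 1 ∧
    Tendsto (fun N : ℕ => (∑ n ∈ Finset.range N, f (x n)) / (N : ℝ)) atTop
      (𝓝 (∫ ω in (0:ℝ)..1, f ω))) ?_ ?_ ?_ ?_ hf
  · rintro _ ⟨a, ha0, ha1, rfl⟩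
    obtain ⟨h1, h2⟩ := hh_int ha0 ha1
    refine ⟨h1, ?_⟩
    rw [h2]
    have h3 := hx 0 a le_rfl ha0 ha1
    rw [sub_zero] at h3
    refine h3.congr fun N => ?_
    congr 1
    rw [← Finset.sum_boole]
    refine Finset.sum_congr rfl fun n _ => ?_
    unfold hh
    simp [Int.fract_nonneg]
  · refine ⟨by simpa using! (intervalIntegrable_const (c := (0:ℝ))), ?_⟩
    simp
  · rintro f g - - ⟨f1, f2⟩ ⟨g1, g2⟩
    refine ⟨f1.add g1, ?_⟩
    simp only [Pi.add_apply]
    rw [intervalIntegral.integral_add f1 g1]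
    refine (f2.add g2).congr fun N => ?_
    rw [Finset.sum_add_distrib, add_div]
  · rintro c f - ⟨f1, f2⟩
    refine ⟨f1.smul c, ?_⟩
    simp only [Pi.smul_apply, smul_eq_mul]
    rw [intervalIntegral.integral_const_mul]
    refine (f2.const_mul c).congr fun N => ?_
    rw [← Finset.mul_sum, mul_div_assoc]

theorem wl : TWl := by
  intro lam α hα h0 h1 k
  have hm : (fun ω => loc (pot lam α ω) k 0) ∈ SS := sch_mem h0 h1 k 0
  have h2 := (avg_SS (ud_rot hα) hm).2
  refine h2.congr fun N => ?_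
  congr 1
  refine Finset.sum_congr rfl fun n _ => ?_
  have e1 := loc_shift (pot lam α 0) k ((n : ℤ) + 1)
  rw [pot_shift] at e1
  rw [e1]
  push_cast
  rfl

end Pool.Agent.W688.Dos
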