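import Pool.Agent.W811.Dos.Stm
import Pool.Agent.W965.Stu.Dist
import Pool.Agent.W965.Stu.Tr
import Pool.Agent.H695R3.ST.Bloch

/-! # Number and size of the zeros of `y_m` (DD-ZC of helper811) -/

set_option autoImplicit false

open MeasureTheory Filter Topology Set Polynomial

namespace Pool.Agent.W688.Dos

open Pool.Agent.W811.Dos Pool.Agent.W811.Stu Pool.Agent.H695R3.ST Pool.Agent.W965.Stu

/-- size of the real zeros of the discriminant -/
lemma zero_size {V : ℤ → ℝ} {lam : ℝ} (hV : ∀ n, 0 ≤ V n ∧ V n ≤ lam) {q : ℕ} (hq : 1 ≤ q)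
    {m : ℤ} {E : ℝ} (hE : (D V m q).eval E = 0) : |E| ≤ 2 + lam := by
  have hz : aeval (E : ℂ) (D V m q) = 0 := by
    have h1 : aeval (algebraMap ℝ ℂ E) (D V m q) = algebraMap ℝ ℂ (aeval E (D V m q)) :=
      aeval_algebraMap_apply _ _ _
    rw [coe_aeval_eq_eval, hE, map_zero] at h1
    exact h1
  obtain ⟨u, hu0, hu, huq, huq1⟩ := exists_bloch V m q (E : ℂ) Complex.I (by rw [hz]; simp)
  have n0 : ‖u q‖ = ‖u 0‖ := by rw [huq]; simp
  have n1 : ‖u (q + 1)‖ = ‖u 1‖ := by rw [huq1]; simp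
  obtain ⟨k0, hk0, hmax⟩ := (Finset.Icc 1 q).exists_max_image (fun k => ‖u k‖)
    ⟨1, Finset.mem_Icc.2 ⟨le_rfl, hq⟩⟩
  rw [Finset.mem_Icc] at hk0
  have hall : ∀ k, k ≤ q + 1 → ‖u k‖ ≤ ‖u k0‖ := by
    intro k hk
    rcases Nat.eq_zero_or_pos k with h | h
    · rw [h, ← n0]
      exact hmax q (Finset.mem_Icc.2 ⟨hq, le_rfl⟩)
    · rcases Nat.lt_or_ge q k with h2 | h2
      · have : k = q + 1 := by omega
        rw [this, n1]
        exact hmax 1 (Finset.mem_Icc.2 ⟨le_rfl, hq⟩)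
      · exact hmax k (Finset.mem_Icc.2 ⟨h, h2⟩)
  have hpos : 0 < ‖u k0‖ := by
    rcases hu0 with h | h
    · exact (norm_pos_iff.2 h).trans_le (hall 0 (by omega))
    · exact (norm_pos_iff.2 h).trans_le (hall 1 (by omega))
  obtain ⟨k, hk⟩ : ∃ k, k0 = k + 1 := ⟨k0 - 1, by omega⟩
  subst hk
  have h1 : ((E : ℂ) - V (m + k)) * u (k + 1) = u (k + 2) + u k := by
    rw [hu k]; ring
  have h2 : ‖(E : ℂ) - V (m + k)‖ * ‖u (k + 1)‖ ≤ 2 * ‖u (k + 1)‖ := by
    rw [← norm_mul, h1]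
    refine (norm_add_le _ _).trans ?_
    have a1 := hall (k + 2) (by omega)
    have a2 := hall k (by omega)
    linarith
  have h3 : ‖(E : ℂ) - V (m + k)‖ ≤ 2 := le_of_mul_le_mul_right h2 hpos
  rw [← Complex.ofReal_sub, Complex.norm_real, Real.norm_eq_abs] at h3
  have h4 := abs_le.1 h3
  have h5 := hV (m + k)
  rw [abs_le]
  constructor <;> linarith

theorem zc : TZc := by
  intro lam hlam α hα h0 h1 m hm
  obtain ⟨m, rfl⟩ : ∃ m', m = m' + 1 := ⟨m - 1, by omega⟩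
  have hq : 1 ≤ QQ (dig α) (m + 1 + 1) := QQ_pos (fun k => dig_pos hα h0 h1 k) (m + 1)
  set q := QQ (dig α) (m + 1 + 1) with hqd
  set P := D (pot lam α 0) 1 q with hP
  have hev : ∀ E, 2 * (orb (dig α) (lin lam E) (m + 1)).y = P.eval E :=
    fun E => orb_y_D hα h0 h1 m
  have hP0 : P ≠ 0 := (D_monic _ 1 hq).1.ne_zero
  have hmem : ∀ E, E ∈ P.roots.toFinset ↔ (orb (dig α) (lin lam E) (m + 1)).y = 0 := by
    intro E
    rw [Multiset.mem_toFinset, mem_roots hP0, IsRoot.def, ← hev]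
    constructor
    · intro h; linarith
    · intro h; rw [h, mul_zero]
  have hfin : {E : ℝ | (orb (dig α) (lin lam E) (m + 1)).y = 0}.Finite := by
    refine (Finset.finite_toSet P.roots.toFinset).subset fun E hE => ?_
    exact (hmem E).2 hE
  have hzs : ∀ E, E ∈ zs lam (m + 1) (dig α) ↔ (orb (dig α) (lin lam E) (m + 1)).y = 0 := by
    intro E
    unfold zs
    rw [dif_pos hfin, Finite.mem_toFinset]
    rfl
  have hzs2 : zs lam (m + 1) (dig α) = P.roots.toFinset := by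
    ext E
    rw [hzs, hmem]
  have hc : ∀ E : ℝ, (P.eval E) ^ 2 ≤ 4 → (derivative P).eval E ≠ 0 := by
    intro E hE
    rw [← hev] at hE
    have h2 : |(orb (dig α) (lin lam E) (m + 1)).y| ≤ 1 := by
      rw [← sq_le_one_iff_abs_le_one]
      nlinarith
    have h3 := Pool.Agent.W965.Stu.Dist.Vy_ne hlam.ne' (fun k => dig_pos hα h0 h1 k) (m + 1) E
      (h2.trans_lt (one_lt_cc (by positivity)))
    have h4 := (hasDeriv_level hlam.ne' (dig α) (m + 1) E).const_mul 2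
    have h5 := P.hasDerivAt E
    have h6 : (fun e => P.eval e) = fun e => 2 * (orb (dig α) (lin lam e) (m + 1)).y :=
      funext fun e => (hev e).symm
    rw [h6] at h5
    have h7 := h5.unique h4
    rw [h7]
    refine mul_ne_zero two_ne_zero (div_ne_zero (neg_ne_zero.2 h3) hlam.ne')
  refine ⟨hzs, ?_, ?_⟩
  · rw [hzs2]
    exact card_zeros hq 1 hc
  · intro E hE
    rw [hzs2, Multiset.mem_toFinset, mem_roots hP0, IsRoot.def] at hE
    refine zero_size (V := pot lam α 0) (fun n => ?_) hq hE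
    unfold pot
    split_ifs
    · exact ⟨hlam.le, le_rfl⟩
    · exact ⟨le_rfl, hlam.le⟩

end Pool.Agent.W688.Dos
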